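import Mathlib
import Pool.Agent.Q134.AB.B1
set_option autoImplicit false

/-!
The map B1: certificate, type 1, part 3.
-/

namespace Pool.Agent.Q134.AB.B1

open Pool.Agent.H549R3.Chk Pool.Agent.H549R3.M2 Pool.Agent.Q134.AB.Fam

theorem hm1_3 : mainB 8 151 23 128 128 1 vX vY (M.wX (uXA 1)) (M.wY (uYA 1)) (fun a r => (mkA 1) (G a r))
    3 mkA uXA uYA T1 MK1 T1_3 = true := by
  decide +kernel

end Pool.Agent.Q134.AB.B1
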