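import Mathlib
import Pool.Agent.Q134.AB.B1c0_0
import Pool.Agent.Q134.AB.B1c0_1
import Pool.Agent.Q134.AB.B1c0_2
import Pool.Agent.Q134.AB.B1c0_3
import Pool.Agent.Q134.AB.B1c0_4
import Pool.Agent.Q134.AB.B1c0_5
import Pool.Agent.Q134.AB.B1c1_0
import Pool.Agent.Q134.AB.B1c1_1
import Pool.Agent.Q134.AB.B1c1_2
import Pool.Agent.Q134.AB.B1c1_3
import Pool.Agent.Q134.AB.B1c1_4
import Pool.Agent.Q134.AB.B1c1_5
import Pool.Agent.Q134.AB.B1c2_0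
import Pool.Agent.Q134.AB.B1c2_1
import Pool.Agent.Q134.AB.B1c2_2
import Pool.Agent.Q134.AB.B1c2_3
import Pool.Agent.Q134.AB.B1c2_4
import Pool.Agent.Q134.AB.B1c2_5
set_option autoImplicit false

/-!
The map B1: the certificate.
-/

namespace Pool.Agent.Q134.AB.B1

open Pool.Agent.H549R3.Chk Pool.Agent.H549R3.M2 Pool.Agent.Q134.AB.Fam

theorem hmain0 (p : ℕ × List (ℕ × ℕ)) (hp : p ∈ T0) : ∃ R, p ∈ R ∧ mainB 8 151 23 128 128 1 vX vY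
    (M.wX (uXA 0)) (M.wY (uYA 0)) (fun a r => (mkA 0) (G a r)) 3 mkA uXA uYA T0 MK0 R = true := by
  unfold T0 at hp
  simp only [List.mem_append] at hp
  rcases hp with h | h | h | h | h | h
  · exact ⟨T0_0, h, hm0_0⟩
  · exact ⟨T0_1, h, hm0_1⟩
  · exact ⟨T0_2, h, hm0_2⟩
  · exact ⟨T0_3, h, hm0_3⟩
  · exact ⟨T0_4, h, hm0_4⟩
  · exact ⟨T0_5, h, hm0_5⟩

theorem all0 : AllGood M 1 3 mkA uXA uYA (mkA 0) (uXA 0) (uYA 0) :=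
  sound M okM 1 3 mkA uXA uYA (mkA 0) (uXA 0) (uYA 0) T0 MK0 hT0 hcov0 hbit0 hmain0

theorem hmain1 (p : ℕ × List (ℕ × ℕ)) (hp : p ∈ T1) : ∃ R, p ∈ R ∧ mainB 8 151 23 128 128 1 vX vY
    (M.wX (uXA 1)) (M.wY (uYA 1)) (fun a r => (mkA 1) (G a r)) 3 mkA uXA uYA T1 MK1 R = true := by
  unfold T1 at hp
  simp only [List.mem_append] at hp
  rcases hp with h | h | h | h | h | h
  · exact ⟨T1_0, h, hm1_0⟩
  · exact ⟨T1_1, h, hm1_1⟩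
  · exact ⟨T1_2, h, hm1_2⟩
  · exact ⟨T1_3, h, hm1_3⟩
  · exact ⟨T1_4, h, hm1_4⟩
  · exact ⟨T1_5, h, hm1_5⟩

theorem all1 : AllGood M 1 3 mkA uXA uYA (mkA 1) (uXA 1) (uYA 1) :=
  sound M okM 1 3 mkA uXA uYA (mkA 1) (uXA 1) (uYA 1) T1 MK1 hT1 hcov1 hbit1 hmain1

theorem hmain2 (p : ℕ × List (ℕ × ℕ)) (hp : p ∈ T2) : ∃ R, p ∈ R ∧ mainB 8 151 23 128 128 1 vX vY
    (M.wX (uXA 2)) (M.wY (uYA 2)) (fun a r => (mkA 2) (G a r)) 3 mkA uXA uYA T2 MK2 R = true := by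
  unfold T2 at hp
  simp only [List.mem_append] at hp
  rcases hp with h | h | h | h | h | h
  · exact ⟨T2_0, h, hm2_0⟩
  · exact ⟨T2_1, h, hm2_1⟩
  · exact ⟨T2_2, h, hm2_2⟩
  · exact ⟨T2_3, h, hm2_3⟩
  · exact ⟨T2_4, h, hm2_4⟩
  · exact ⟨T2_5, h, hm2_5⟩

theorem all2 : AllGood M 1 3 mkA uXA uYA (mkA 2) (uXA 2) (uYA 2) :=
  sound M okM 1 3 mkA uXA uYA (mkA 2) (uXA 2) (uYA 2) T2 MK2 hT2 hcov2 hbit2 hmain2

end Pool.Agent.Q134.AB.B1
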