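import Mathlib
import Pool.Agent.Q134.AB.C3
set_option autoImplicit false

/-!
The map C3: certificate, part 0.
-/

namespace Pool.Agent.Q134.AB.C3

open Pool.Agent.H549R3.M2 Pool.Agent.Q134.AB.Fam

theorem h0 : midB 183 17 44 105 3 vX vY 3 mkA uXA uYA T (T.reverse ++ T.reverse) R0
    = true := by decide +kernel

theorem h3 : midB 183 17 44 105 3 vX vY 3 mkA uXA uYA T (T.reverse ++ T.reverse) R3
    = true := by decide +kernel

theorem h6 : midB 183 17 44 105 3 vX vY 3 mkA uXA uYA T (T.reverse ++ T.reverse) R6
    = true := by decide +kernel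

theorem h9 : midB 183 17 44 105 3 vX vY 3 mkA uXA uYA T (T.reverse ++ T.reverse) R9
    = true := by decide +kernel

theorem h12 : midB 183 17 44 105 3 vX vY 3 mkA uXA uYA T (T.reverse ++ T.reverse) R12
    = true := by decide +kernel

theorem h15 : midB 183 17 44 105 3 vX vY 3 mkA uXA uYA T (T.reverse ++ T.reverse) R15
    = true := by decide +kernel

theorem h18 : midB 183 17 44 105 3 vX vY 3 mkA uXA uYA T (T.reverse ++ T.reverse) R18
    = true := by decide +kernel

end Pool.Agent.Q134.AB.C3
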