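import Mathlib
import Pool.Agent.Q134.AB.C3
set_option autoImplicit false

/-!
The map C3: certificate, part 1.
-/

namespace Pool.Agent.Q134.AB.C3

open Pool.Agent.H549R3.M2 Pool.Agent.Q134.AB.Fam

theorem h1 : midB 183 17 44 105 3 vX vY 3 mkA uXA uYA T (T.reverse ++ T.reverse) R1
    = true := by decide +kernel

theorem h4 : midB 183 17 44 105 3 vX vY 3 mkA uXA uYA T (T.reverse ++ T.reverse) R4
    = true := by decide +kernel

theorem h7 : midB 183 17 44 105 3 vX vY 3 mkA uXA uYA T (T.reverse ++ T.reverse) R7
    = true := by decide +kernel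

theorem h10 : midB 183 17 44 105 3 vX vY 3 mkA uXA uYA T (T.reverse ++ T.reverse) R10
    = true := by decide +kernel

theorem h13 : midB 183 17 44 105 3 vX vY 3 mkA uXA uYA T (T.reverse ++ T.reverse) R13
    = true := by decide +kernel

theorem h16 : midB 183 17 44 105 3 vX vY 3 mkA uXA uYA T (T.reverse ++ T.reverse) R16
    = true := by decide +kernel

end Pool.Agent.Q134.AB.C3
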