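import Mathlib
import Pool.Agent.Q134.AB.C3
set_option autoImplicit false

/-!
The map C3: certificate, part 2.
-/

namespace Pool.Agent.Q134.AB.C3

open Pool.Agent.H549R3.M2 Pool.Agent.Q134.AB.Fam

theorem h2 : midB 183 17 44 105 3 vX vY 3 mkA uXA uYA T (T.reverse ++ T.reverse) R2
    = true := by decide +kernel

theorem h5 : midB 183 17 44 105 3 vX vY 3 mkA uXA uYA T (T.reverse ++ T.reverse) R5
    = true := by decide +kernel

theorem h8 : midB 183 17 44 105 3 vX vY 3 mkA uXA uYA T (T.reverse ++ T.reverse) R8
    = true := by decide +kernel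

theorem h11 : midB 183 17 44 105 3 vX vY 3 mkA uXA uYA T (T.reverse ++ T.reverse) R11
    = true := by decide +kernel

theorem h14 : midB 183 17 44 105 3 vX vY 3 mkA uXA uYA T (T.reverse ++ T.reverse) R14
    = true := by decide +kernel

theorem h17 : midB 183 17 44 105 3 vX vY 3 mkA uXA uYA T (T.reverse ++ T.reverse) R17
    = true := by decide +kernel

end Pool.Agent.Q134.AB.C3
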