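import Mathlib
import Pool.Agent.Q134.AB.C3c0
import Pool.Agent.Q134.AB.C3c1
import Pool.Agent.Q134.AB.C3c2
set_option autoImplicit false

/-!
The map C3: the certificate.
-/

namespace Pool.Agent.Q134.AB.C3

open Pool.Agent.H549R3.M2 Pool.Agent.Q134.AB.Fam

theorem hmain (p : Row) (hp : p ∈ T) : ∃ R, p ∈ R ∧ midB 183 17 44 105 3 vX vY 3 mkA uXA uYA
    T (T.reverse ++ T.reverse) R = true := by
  rcases memT p hp with h | h | h | h | h | h | h | h | h | h | h | h | h | h | h | h | h | h | h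
  · exact ⟨R0, h, h0⟩
  · exact ⟨R1, h, h1⟩
  · exact ⟨R2, h, h2⟩
  · exact ⟨R3, h, h3⟩
  · exact ⟨R4, h, h4⟩
  · exact ⟨R5, h, h5⟩
  · exact ⟨R6, h, h6⟩
  · exact ⟨R7, h, h7⟩
  · exact ⟨R8, h, h8⟩
  · exact ⟨R9, h, h9⟩
  · exact ⟨R10, h, h10⟩
  · exact ⟨R11, h, h11⟩
  · exact ⟨R12, h, h12⟩
  · exact ⟨R13, h, h13⟩
  · exact ⟨R14, h, h14⟩
  · exact ⟨R15, h, h15⟩
  · exact ⟨R16, h, h16⟩
  · exact ⟨R17, h, h17⟩
  · exact ⟨R18, h, h18⟩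

theorem all0 : AllGood M 3 3 mkA uXA uYA mkT uT uT :=
  sound2 M okM 3 3 11 5 mkA uXA uYA mkT uT uT (fun _ => rfl) (fun _ => rfl) T hk.1 hk.2 hT
    (Pool.Agent.H549R3.Check.allL_spec _ _ hrow) hmain

end Pool.Agent.Q134.AB.C3
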